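import Mathlib

set_option autoImplicit false

/-!
Definitions: bisequential, realcompact and hereditarily realcompact spaces.
-/

open Set Filter Topology

namespace Pool.Agent.Helper78_Biseq

universe v

/-- `X` is bisequential: for every point `x` and every ultrafilter `U` on `X` converging to `x` there
is a decreasing sequence of members of `U` such that every neighbourhood of `x` contains one of
them. -/
def Bisequential (X : Type v) [TopologicalSpace X] : Prop :=
  ∀ (x : X) (U : Ultrafilter X), (U : Filter X) ≤ 𝓝 x →
    ∃ A : ℕ → Set X, Antitone A ∧ (∀ n, A n ∈ U) ∧ ∀ O ∈ 𝓝 x, ∃ n, A n ⊆ O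

/-- `Y` is realcompact: it is homeomorphic to a closed subspace of a power of the real line. -/
def Realcompact (Y : Type v) [TopologicalSpace Y] : Prop :=
  ∃ (ι : Type v) (e : Y → ι → ℝ), IsClosedEmbedding e

/-- `X` is hereditarily realcompact: every subspace of `X` is realcompact. -/
def HereditarilyRealcompact (X : Type v) [TopologicalSpace X] : Prop :=
  ∀ Y : Set X, Realcompact Y

end Pool.Agent.Helper78_Biseq
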