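import Mathlib
import Pool.Agent.Helper78_Biseq.Defs

set_option autoImplicit false

/-!
Compact Hausdorff spaces in which the complement of every point is a disjoint sum of open
sigma-compact subspaces.
-/

open Set Filter Topology

namespace Pool.Agent.Helper78_Biseq

universe u v w

/-- The complement of `x` is a topological sum of open `σ`-compact sets. -/
def GoodAt (X : Type v) [TopologicalSpace X] (x : X) : Prop :=
  ∃ r : Setoid X, (∀ y, r x y → y = x) ∧
    ∀ y, y ≠ x → IsOpen {z | r y z} ∧ IsSigmaCompact {z | r y z}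

/-- An ultrafilter which is not countably complete has a decreasing sequence of members with empty
intersection. -/
theorem exists_seq_of_not_complete {Λ : Type u} (W : Ultrafilter Λ)
    (h : ¬ CountableInterFilter (W : Filter Λ)) :
    ∃ M : ℕ → Set Λ, Antitone M ∧ (∀ n, M n ∈ W) ∧ (∀ l, ∃ n, l ∉ M n) := by
  have h1 : ∃ S : Set (Set Λ), S.Countable ∧ (∀ s ∈ S, s ∈ (W : Filter Λ)) ∧
      ⋂₀ S ∉ (W : Filter Λ) := by
    by_contra hcon
    push Not at hcon
    exact h ⟨fun S hS hs => hcon S hS hs⟩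
  obtain ⟨S, hS, hSW, hSn⟩ := h1
  have hne : S.Nonempty := by
    rw [nonempty_iff_ne_empty]
    rintro rfl
    simp at hSn
  obtain ⟨B, hB⟩ := hS.exists_eq_range hne
  have hD : (⋂₀ S)ᶜ ∈ W := Ultrafilter.compl_mem_iff_notMem.2 hSn
  refine ⟨fun n => {l | ∀ m < n, l ∈ (⋂₀ S)ᶜ ∩ B m}, ?_, ?_, ?_⟩
  · intro n k hnk l hl m hm
    exact hl m (lt_of_lt_of_le hm hnk)
  · intro n
    have : {l | ∀ m < n, l ∈ (⋂₀ S)ᶜ ∩ B m} = ⋂ m ∈ Finset.range n, ((⋂₀ S)ᶜ ∩ B m) := by
      ext l
      simp
    show {l | ∀ m < n, l ∈ (⋂₀ S)ᶜ ∩ B m} ∈ W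
    rw [this]
    have h2 : (⋂ m ∈ Finset.range n, ((⋂₀ S)ᶜ ∩ B m)) ∈ (W : Filter Λ) := by
      rw [Filter.biInter_finset_mem]
      intro m _
      exact Filter.inter_mem hD (hSW _ (by rw [hB]; exact mem_range_self m))
    exact h2
  · intro l
    by_contra hcon
    push Not at hcon
    have hl : l ∈ (⋂₀ S)ᶜ := (hcon 1 0 (by norm_num)).1
    apply hl
    rw [hB]
    rintro s ⟨m, rfl⟩
    exact (hcon (m + 1) m (by omega)).2

section Compact

variable {X : Type v} [TopologicalSpace X] [CompactSpace X] [T2Space X]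

/-- A point outside of a `σ`-compact set can be separated from it by a continuous function in the
following weak sense. -/
theorem exists_fun {C : Set X} (hC : IsSigmaCompact C) {x : X} (hx : x ∉ C) :
    ∃ g : X → ℝ, Continuous g ∧ (∀ z, 0 ≤ g z) ∧ g x = 0 ∧ ∀ z ∈ C, 0 < g z := by
  obtain ⟨K, hK, hKC⟩ := hC
  have h1 : ∀ n, ∃ f : C(X, ℝ), EqOn f 0 {x} ∧ EqOn f 1 (K n) ∧ ∀ x, f x ∈ Icc (0 : ℝ) 1 := by
    intro n
    apply exists_continuous_zero_one_of_isClosed isClosed_singleton (hK n).isClosed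
    rw [disjoint_singleton_left]
    intro h
    exact hx (hKC ▸ mem_iUnion_of_mem n h)
  choose f hf0 hf1 hf using h1
  have hsum : Summable (fun n : ℕ => (1 / 2 : ℝ) ^ n) := summable_geometric_two
  have hb : ∀ n z, ‖(1 / 2 : ℝ) ^ n * f n z‖ ≤ (1 / 2 : ℝ) ^ n := by
    intro n z
    have h1 := hf n z
    rw [norm_mul, Real.norm_of_nonneg (by positivity), Real.norm_of_nonneg h1.1]
    exact mul_le_of_le_one_right (by positivity) h1.2
  have hs : ∀ z, Summable (fun n => (1 / 2 : ℝ) ^ n * f n z) :=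
    fun z => Summable.of_norm_bounded hsum (fun n => hb n z)
  refine ⟨fun z => ∑' n, (1 / 2 : ℝ) ^ n * f n z, ?_, ?_, ?_, ?_⟩
  · exact continuous_tsum (fun n => by fun_prop) hsum hb
  · intro z
    exact tsum_nonneg (fun n => mul_nonneg (by positivity) (hf n z).1)
  · have : ∀ n, (1 / 2 : ℝ) ^ n * f n x = 0 := by
      intro n
      rw [hf0 n (mem_singleton x)]
      simp
    simp only [this]
    exact tsum_zero
  · intro z hz
    rw [← hKC] at hz
    obtain ⟨m, hm⟩ := mem_iUnion.1 hz
    apply (hs z).tsum_pos (fun n => mul_nonneg (by positivity) (hf n z).1) m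
    rw [hf1 m hm]
    simp

/-- The classes meeting the complement of a neighbourhood of `x` are finite in number. -/
theorem finite_classes {x : X} {r : Setoid X}
    (hr : ∀ y, y ≠ x → IsOpen {z | r y z} ∧ IsSigmaCompact {z | r y z}) {O : Set X}
    (hO : O ∈ 𝓝 x) : ((Quotient.mk r) '' Oᶜ).Finite := by
  classical
  obtain ⟨O', hO'O, hO', hxO'⟩ := mem_nhds_iff.1 hO
  have hc : IsCompact O'ᶜ := hO'.isClosed_compl.isCompact
  obtain ⟨t, ht⟩ := hc.elim_finite_subcover (fun y : {y : X // y ≠ x} => {z | r y.1 z})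
    (fun y => (hr y.1 y.2).1) (by
      intro z hz
      have hzx : z ≠ x := by
        rintro rfl
        exact hz hxO'
      exact mem_iUnion.2 ⟨⟨z, hzx⟩, r.refl z⟩)
  refine ((t.image (fun y : {y : X // y ≠ x} => Quotient.mk r y.1)).finite_toSet).subset ?_
  rintro _ ⟨z, hz, rfl⟩
  have hz' : z ∈ O'ᶜ := fun h => hz (hO'O h)
  obtain ⟨y, hyt, hy⟩ := mem_iUnion₂.1 (ht hz')
  rw [Finset.mem_coe, Finset.mem_image]
  exact ⟨y, hyt, Quotient.sound hy⟩

omit [TopologicalSpace X] [CompactSpace X] [T2Space X] in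
/-- Points in classes other than that of `x`. -/
theorem mk_fiber {r : Setoid X} (y : X) : Quotient.mk r ⁻¹' {Quotient.mk r y} = {z | r y z} := by
  ext z
  constructor
  · intro h
    exact r.symm (Quotient.eq.1 h)
  · intro h
    exact Quotient.eq.2 (r.symm h)

omit [TopologicalSpace X] [CompactSpace X] [T2Space X] in
/-- Principal pushforward: a countably complete ultrafilter on the quotient is principal. -/
theorem quotient_principal {r : Setoid X}
    (hm : ∀ U : Ultrafilter X, CountableInterFilter (U : Filter X) → ∃ x, U = pure x)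
    (W : Ultrafilter (Quotient r)) (hW : CountableInterFilter (W : Filter (Quotient r))) :
    ∃ l, W = pure l := by
  have h1 : CountableInterFilter ((W.map Quotient.out : Ultrafilter X) : Filter X) := by
    rw [Ultrafilter.coe_map]
    infer_instance
  obtain ⟨y, hy⟩ := hm _ h1
  refine ⟨Quotient.mk r y, ?_⟩
  have h2 : W = (W.map Quotient.out).map (Quotient.mk r) := by
    rw [Ultrafilter.map_map]
    have : (Quotient.mk r ∘ Quotient.out) = id := by
      funext l
      exact Quotient.out_eq l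
    rw [this, Ultrafilter.map_id]
  rw [h2, hy, Ultrafilter.map_pure]

theorem bisequential_of_good (hg : ∀ x : X, GoodAt X x)
    (hm : ∀ U : Ultrafilter X, CountableInterFilter (U : Filter X) → ∃ x, U = pure x) :
    Bisequential X := by
  intro x U hU
  by_cases hxU : {x} ∈ U
  · refine ⟨fun _ => {x}, antitone_const, fun _ => hxU, ?_⟩
    intro O hO
    exact ⟨0, singleton_subset_iff.2 (mem_of_mem_nhds hO)⟩
  have hxU' : ({x} : Set X)ᶜ ∈ U := Ultrafilter.compl_mem_iff_notMem.2 hxU
  obtain ⟨r, hrx, hr⟩ := hg x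
  by_cases hW : CountableInterFilter ((U.map (Quotient.mk r) : Ultrafilter (Quotient r)) :
      Filter (Quotient r))
  · obtain ⟨l, hl⟩ := quotient_principal hm _ hW
    obtain ⟨y, rfl⟩ := Quotient.exists_rep l
    have hC : {z | r y z} ∈ U := by
      have : ({Quotient.mk r y} : Set (Quotient r)) ∈ U.map (Quotient.mk r) := by
        rw [hl]
        exact mem_singleton _
      rw [Ultrafilter.mem_map] at this
      rwa [mk_fiber] at this
    have hyx : y ≠ x := by
      rintro rfl
      apply hxU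
      refine Filter.mem_of_superset hC ?_
      intro z hz
      exact hrx z hz
    have hxC : x ∉ {z | r y z} := by
      intro h
      exact hyx (hrx y (r.symm h))
    obtain ⟨g, hgc, hg0, hgx, hgC⟩ := exists_fun (hr y hyx).2 hxC
    refine ⟨fun n => {z | r y z} ∩ {z | g z < 1 / ((n : ℝ) + 1)}, ?_, ?_, ?_⟩
    · intro n k hnk z hz
      refine ⟨hz.1, ?_⟩
      have h1 : g z < 1 / ((k : ℝ) + 1) := hz.2
      have h2 : 1 / ((k : ℝ) + 1) ≤ 1 / ((n : ℝ) + 1) := by
        apply one_div_le_one_div_of_le (by positivity)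
        have : (n : ℝ) ≤ k := by exact_mod_cast hnk
        linarith
      exact lt_of_lt_of_le h1 h2
    · intro n
      refine Filter.inter_mem hC (hU ?_)
      have : IsOpen {z | g z < 1 / ((n : ℝ) + 1)} := isOpen_lt hgc continuous_const
      apply this.mem_nhds
      show g x < _
      rw [hgx]
      positivity
    · intro O hO
      obtain ⟨O', hO'O, hO', hxO'⟩ := mem_nhds_iff.1 hO
      -- the part of the class outside of `O'` is compact
      have hcl : IsClosed (O'ᶜ ∩ {z | r y z}) := by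
        have : O'ᶜ ∩ {z | r y z} = O'ᶜ ∩ ⋂ (w : {w : X // w ≠ x ∧ ¬ r y w}), {z | r w.1 z}ᶜ := by
          ext z
          constructor
          · rintro ⟨h1, h2⟩
            refine ⟨h1, mem_iInter.2 ?_⟩
            rintro ⟨w, hw1, hw2⟩ h3
            exact hw2 (r.trans h2 (r.symm h3))
          · rintro ⟨h1, h2⟩
            refine ⟨h1, ?_⟩
            by_contra h3
            have hzx : z ≠ x := by
              rintro rfl
              exact h1 hxO'
            exact mem_iInter.1 h2 ⟨z, hzx, h3⟩ (r.refl z)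
        rw [this]
        apply hO'.isClosed_compl.inter
        apply isClosed_iInter
        rintro ⟨w, hw1, hw2⟩
        exact (hr w hw1).1.isClosed_compl
      have hcomp := hcl.isCompact
      have hpos : ∃ n : ℕ, ∀ z ∈ O'ᶜ ∩ {z | r y z}, 1 / ((n : ℝ) + 1) ≤ g z := by
        rcases (O'ᶜ ∩ {z | r y z}).eq_empty_or_nonempty with he | hne
        · exact ⟨0, by rw [he]; simp⟩
        · obtain ⟨z0, hz0, hmin⟩ := hcomp.exists_isMinOn hne hgc.continuousOn
          obtain ⟨n, hn⟩ := exists_nat_one_div_lt (hgC z0 hz0.2)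
          refine ⟨n, fun z hz => ?_⟩
          exact hn.le.trans (hmin hz)
      obtain ⟨n, hn⟩ := hpos
      refine ⟨n, ?_⟩
      rintro z ⟨hz1, hz2⟩
      apply hO'O
      by_contra h
      exact absurd hz2 (not_lt.2 (hn z ⟨h, hz1⟩))
  · obtain ⟨M, hMa, hMW, hMe⟩ := exists_seq_of_not_complete _ hW
    refine ⟨fun n => Quotient.mk r ⁻¹' (M n) ∩ {x}ᶜ, ?_, ?_, ?_⟩
    · intro n k hnk
      exact inter_subset_inter_left _ (preimage_mono (hMa hnk))
    · intro n
      exact Filter.inter_mem (hMW n) hxU'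
    · intro O hO
      have hfin := finite_classes hr hO
      choose N hN using hMe
      obtain ⟨k, hk⟩ := (hfin.image N).bddAbove
      refine ⟨k, ?_⟩
      rintro z ⟨hz1, _⟩
      by_contra h
      have h1 : Quotient.mk r z ∈ (Quotient.mk r) '' Oᶜ := ⟨z, h, rfl⟩
      have h2 : N (Quotient.mk r z) ≤ k := hk ⟨_, h1, rfl⟩
      exact hN (Quotient.mk r z) (hMa h2 hz1)

omit [CompactSpace X] in
theorem principal_of_bisequential [CompactSpace X] (hb : Bisequential X) (U : Ultrafilter X)
    (hU : CountableInterFilter (U : Filter X)) : ∃ x, U = pure x := by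
  obtain ⟨x, _, hx⟩ := isCompact_univ.ultrafilter_le_nhds U (by simp)
  obtain ⟨A, _, hAU, hA⟩ := hb x U hx
  refine ⟨x, ?_⟩
  have h1 : (⋂ n, A n) ∈ (U : Filter X) := countable_iInter_mem.2 hAU
  have h2 : (⋂ n, A n) ⊆ {x} := by
    intro z hz
    by_contra hzx
    have : ({z} : Set X)ᶜ ∈ 𝓝 x := isOpen_compl_singleton.mem_nhds (fun h => hzx (by
      rw [mem_singleton_iff] at h ⊢; exact h.symm))
    obtain ⟨n, hn⟩ := hA _ this
    exact hn (mem_iInter.1 hz n) rfl
  have h3 : ({x} : Set X) ∈ U := Filter.mem_of_superset h1 h2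
  apply Ultrafilter.eq_of_le
  rw [Ultrafilter.coe_pure]
  exact Filter.le_pure_iff.2 h3

end Compact

end Pool.Agent.Helper78_Biseq
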