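import Mathlib
import Pool.Agent.Helper78_Biseq.Defs
import Pool.Agent.Helper78_Biseq.Basic

set_option autoImplicit false

/-!
Hereditary realcompactness of compact Hausdorff spaces in which the complement of every point is a
disjoint sum of open sigma-compact subspaces.
-/

open Set Filter Topology

namespace Pool.Agent.Helper78_Biseq

universe u v w

variable {X : Type v} [TopologicalSpace X] [CompactSpace X] [T2Space X]

/-- Evaluation of all real valued continuous functions. -/
def ev (Y : Type v) [TopologicalSpace Y] : Y → C(Y, ℝ) → ℝ := fun y g => g y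

theorem ev_continuous (Y : Type v) [TopologicalSpace Y] : Continuous (ev Y) :=
  continuous_pi (fun g => g.continuous)

theorem ev_embedding_compact : IsEmbedding (ev X) := by
  apply IsClosedEmbedding.isEmbedding
  apply (ev_continuous X).isClosedEmbedding
  intro a b hab
  by_contra hne
  obtain ⟨f, hf0, hf1, _⟩ := exists_continuous_zero_one_of_isClosed
    (isClosed_singleton (x := a)) (isClosed_singleton (x := b)) (by simpa using hne)
  have h1 : f a = f b := congrFun hab f
  rw [hf0 (mem_singleton a), hf1 (mem_singleton b)] at h1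
  simp at h1

theorem ev_embedding (Y : Set X) : IsEmbedding (ev Y) := by
  have h1 : IsEmbedding (ev X ∘ (Subtype.val : Y → X)) :=
    ev_embedding_compact.comp IsEmbedding.subtypeVal
  have h2 : (ev X ∘ (Subtype.val : Y → X)) =
      (fun (φ : C(Y, ℝ) → ℝ) (g : C(X, ℝ)) => φ (g.restrict Y)) ∘ ev Y := by
    funext y g
    rfl
  rw [h2] at h1
  exact IsEmbedding.of_comp (ev_continuous Y)
    (continuous_pi (fun g => continuous_apply _)) h1

theorem hereditarilyRealcompact_of_good (hg : ∀ x : X, GoodAt X x)
    (hm : ∀ U : Ultrafilter X, CountableInterFilter (U : Filter X) → ∃ x, U = pure x) :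
    HereditarilyRealcompact X := by
  intro Y
  refine ⟨C(Y, ℝ), ev Y, ⟨ev_embedding Y, ?_⟩⟩
  rw [← closure_subset_iff_isClosed]
  intro φ hφ
  obtain ⟨G, hG, hGφ⟩ := mem_closure_iff_ultrafilter.1 hφ
  have hinj : Function.Injective (ev Y) := (ev_embedding Y).injective
  set U : Ultrafilter Y := G.comap hinj hG with hU
  have hUφ : ∀ g : C(Y, ℝ), Tendsto g U (𝓝 (φ g)) := by
    intro g
    have h1 : Tendsto (ev Y) U (𝓝 φ) := by
      refine le_trans ?_ hGφ
      rw [hU, Ultrafilter.coe_comap]
      exact map_comap_le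
    exact (continuous_apply g).continuousAt.tendsto.comp h1
  -- the limit in `X`
  obtain ⟨x, _, hx⟩ := isCompact_univ.ultrafilter_le_nhds (U.map (Subtype.val : Y → X)) (by simp)
  have hx' : Tendsto (Subtype.val : Y → X) U (𝓝 x) := hx
  by_cases hxY : x ∈ Y
  · refine ⟨⟨x, hxY⟩, ?_⟩
    have h1 : Tendsto (id : Y → Y) U (𝓝 ⟨x, hxY⟩) := by
      rw [tendsto_subtype_rng]
      exact hx'
    funext g
    have h2 : Tendsto g U (𝓝 (g ⟨x, hxY⟩)) := by
      have := (g.continuous.continuousAt (x := ⟨x, hxY⟩)).tendsto.comp h1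
      exact this
    exact tendsto_nhds_unique h2 (hUφ g)
  exfalso
  obtain ⟨r, hrx, hr⟩ := hg x
  have hYx : ∀ y : Y, (y : X) ≠ x := fun y h => hxY (h ▸ y.2)
  by_cases hW : CountableInterFilter ((U.map (fun y : Y => Quotient.mk r y.1) :
      Ultrafilter (Quotient r)) : Filter (Quotient r))
  · obtain ⟨l, hl⟩ := quotient_principal hm _ hW
    obtain ⟨y, rfl⟩ := Quotient.exists_rep l
    have hC : {z : Y | r y z.1} ∈ U := by
      have : ({Quotient.mk r y} : Set (Quotient r)) ∈ U.map (fun y : Y => Quotient.mk r y.1) := by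
        rw [hl]
        exact mem_singleton _
      rw [Ultrafilter.mem_map] at this
      refine Filter.mem_of_superset this ?_
      intro z hz
      have : z.1 ∈ Quotient.mk r ⁻¹' {Quotient.mk r y} := hz
      rw [mk_fiber] at this
      exact this
    have hyx : y ≠ x := by
      rintro rfl
      obtain ⟨z, hz⟩ := U.nonempty_of_mem hC
      exact hYx z (hrx _ hz)
    have hxC : x ∉ {z | r y z} := by
      intro h
      exact hyx (hrx y (r.symm h))
    obtain ⟨g, hgc, hg0, hgx, hgC⟩ := exists_fun (hr y hyx).2 hxC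
    -- the function `1/g` on the class, zero elsewhere
    classical
    let h : Y → ℝ := fun z => if r y z.1 then 1 / g z.1 else 0
    have hopen : IsOpen {z : Y | r y z.1} := (hr y hyx).1.preimage continuous_subtype_val
    have hclosed : IsClosed {z : Y | r y z.1} := by
      rw [← isOpen_compl_iff]
      have : {z : Y | r y z.1}ᶜ = ⋃ (w : {w : Y // ¬ r y w.1}), {z : Y | r w.1.1 z.1} := by
        ext z
        constructor
        · intro hz
          exact mem_iUnion.2 ⟨⟨z, hz⟩, r.refl _⟩
        · intro hz h3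
          obtain ⟨⟨w, hw⟩, hz'⟩ := mem_iUnion.1 hz
          exact hw (r.trans h3 (r.symm hz'))
      rw [this]
      apply isOpen_iUnion
      rintro ⟨w, hw⟩
      exact (hr w.1 (hYx w)).1.preimage continuous_subtype_val
    have hcont : Continuous h := by
      apply continuous_if
      · intro a ha
        exfalso
        have : frontier {z : Y | r y z.1} = ∅ := IsClopen.frontier_eq ⟨hclosed, hopen⟩
        rw [this] at ha
        exact ha
      · have hcl : closure {z : Y | r y z.1} = {z : Y | r y z.1} := hclosed.closure_eq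
        rw [hcl]
        apply ContinuousOn.div continuousOn_const
          (hgc.comp continuous_subtype_val).continuousOn
        intro z hz
        exact (hgC z.1 hz).ne'
      · exact continuousOn_const
    have h1 := hUφ ⟨h, hcont⟩
    set a := φ ⟨h, hcont⟩ with ha
    have h2 : {z : Y | h z < |a| + 1} ∈ U := by
      have : Iio (|a| + 1) ∈ 𝓝 a := Iio_mem_nhds (by linarith [le_abs_self a])
      exact h1 this
    have h3 : {z : Y | g z.1 < 1 / (|a| + 1)} ∈ U := by
      have h4 : IsOpen {z : X | g z < 1 / (|a| + 1)} := isOpen_lt hgc continuous_const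
      have h5 : {z : X | g z < 1 / (|a| + 1)} ∈ 𝓝 x := h4.mem_nhds (by
        show g x < _
        rw [hgx]
        positivity)
      exact hx' h5
    obtain ⟨z, ⟨hz1, hz2⟩, hz3⟩ := U.nonempty_of_mem
      (Filter.inter_mem (Filter.inter_mem hC h2) h3)
    have hz1' : r y z.1 := hz1
    have hz2' : h z < |a| + 1 := hz2
    have hz3' : g z.1 < 1 / (|a| + 1) := hz3
    have hgz := hgC z.1 hz1'
    have e : h z = 1 / g z.1 := by
      show (if r y z.1 then 1 / g z.1 else 0) = _
      rw [if_pos hz1']
    rw [e, div_lt_iff₀ hgz] at hz2'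
    rw [lt_div_iff₀ (by positivity)] at hz3'
    linarith
  · obtain ⟨M, hMa, hMW, hMe⟩ := exists_seq_of_not_complete _ hW
    classical
    let N : Quotient r → ℕ := fun l => Nat.find (hMe l)
    have hN : ∀ n l, l ∈ M n → n < N l := by
      intro n l hl
      by_contra h
      push Not at h
      exact Nat.find_spec (hMe l) (hMa h hl)
    let h : Y → ℝ := fun z => (N (Quotient.mk r z.1) : ℝ)
    have hcont : Continuous h := by
      rw [continuous_iff_continuousAt]
      intro z
      have : h =ᶠ[𝓝 z] fun _ => h z := by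
        have h1 : {w : Y | r z.1 w.1} ∈ 𝓝 z :=
          ((hr z.1 (hYx z)).1.preimage continuous_subtype_val).mem_nhds (r.refl _)
        filter_upwards [h1] with w hw
        have : Quotient.mk r w.1 = Quotient.mk r z.1 := Quotient.sound (r.symm hw)
        show (N (Quotient.mk r w.1) : ℝ) = N (Quotient.mk r z.1)
        rw [this]
      exact (continuousAt_const).congr this.symm
    have h1 := hUφ ⟨h, hcont⟩
    set a := φ ⟨h, hcont⟩ with ha
    obtain ⟨k, hk⟩ := exists_nat_gt a
    have h2 : {z : Y | h z < k} ∈ U := h1 (Iio_mem_nhds hk)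
    have h3 : {z : Y | Quotient.mk r z.1 ∈ M k} ∈ U := hMW k
    obtain ⟨z, hz1, hz2⟩ := U.nonempty_of_mem (Filter.inter_mem h2 h3)
    have hz1' : (N (Quotient.mk r z.1) : ℝ) < k := hz1
    have hz2' := hN k _ hz2
    have : (k : ℝ) < N (Quotient.mk r z.1) := by exact_mod_cast hz2'
    linarith

/-- On a realcompact discrete space countably complete ultrafilters are principal. -/
theorem exists_value {D : Type v} (V : Ultrafilter D) (hV : CountableInterFilter (V : Filter D))
    (g : D → ℝ) : ∃ a, {d | g d = a} ∈ V := by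
  have h1 : ∃ n : ℕ, {d | g d ∈ Icc (-(n : ℝ)) n} ∈ V := by
    by_contra hcon
    push Not at hcon
    have h2 : ∀ n : ℕ, {d | g d ∈ Icc (-(n : ℝ)) n}ᶜ ∈ (V : Filter D) :=
      fun n => Ultrafilter.compl_mem_iff_notMem.2 (hcon n)
    have h3 := countable_iInter_mem.2 h2
    obtain ⟨d, hd⟩ := V.nonempty_of_mem h3
    obtain ⟨n, hn⟩ := exists_nat_gt |g d|
    apply mem_iInter.1 hd n
    have := abs_lt.1 hn
    exact ⟨this.1.le, this.2.le⟩
  obtain ⟨n, hn⟩ := h1
  have h2 : Icc (-(n : ℝ)) n ∈ V.map g := hn
  obtain ⟨a, _, ha⟩ := isCompact_Icc.ultrafilter_le_nhds' (V.map g) h2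
  refine ⟨a, ?_⟩
  have h3 : ∀ m : ℕ, {d | |g d - a| < 1 / ((m : ℝ) + 1)} ∈ (V : Filter D) := by
    intro m
    have : {y : ℝ | |y - a| < 1 / ((m : ℝ) + 1)} ∈ 𝓝 a := by
      have ho : IsOpen {y : ℝ | |y - a| < 1 / ((m : ℝ) + 1)} :=
        isOpen_lt (by fun_prop) continuous_const
      apply ho.mem_nhds
      show |a - a| < _
      rw [sub_self, abs_zero]
      positivity
    exact ha this
  have h4 := countable_iInter_mem.2 h3
  refine Filter.mem_of_superset h4 ?_
  intro d hd
  by_contra hne
  have hpos : 0 < |g d - a| := abs_pos.2 (sub_ne_zero.2 hne)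
  obtain ⟨m, hm⟩ := exists_nat_one_div_lt hpos
  have := mem_iInter.1 hd m
  have h5 : |g d - a| < 1 / ((m : ℝ) + 1) := this
  linarith

theorem principal_of_realcompact {D : Type v} [TopologicalSpace D] [DiscreteTopology D]
    (hD : Realcompact D) (V : Ultrafilter D) (hV : CountableInterFilter (V : Filter D)) :
    ∃ d, V = pure d := by
  obtain ⟨ι, e, he⟩ := hD
  have h1 : ∀ i, ∃ a, {d | e d i = a} ∈ V := fun i => exists_value V hV (fun d => e d i)
  choose a ha using h1
  have h2 : Tendsto e V (𝓝 a) := by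
    rw [tendsto_pi_nhds]
    intro i
    apply Tendsto.congr' (f₁ := fun _ => a i)
    · filter_upwards [ha i] with d hd
      exact hd.symm
    · exact tendsto_const_nhds
  have h3 : a ∈ range e := by
    have := he.isClosed_range.mem_of_tendsto h2 (Eventually.of_forall (fun d => mem_range_self d))
    exact this
  obtain ⟨d, hd⟩ := h3
  refine ⟨d, ?_⟩
  have h4 : (V : Filter D) ≤ 𝓝 d := by
    rw [he.isEmbedding.nhds_eq_comap, ← tendsto_iff_comap, hd]
    exact h2
  have h5 : {d} ∈ V := h4 ((isOpen_discrete {d}).mem_nhds rfl)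
  apply Ultrafilter.eq_of_le
  rw [Ultrafilter.coe_pure]
  exact Filter.le_pure_iff.2 h5

theorem principal_of_hereditarilyRealcompact (hg : ∀ x : X, GoodAt X x)
    (hh : HereditarilyRealcompact X) (U : Ultrafilter X)
    (hU : CountableInterFilter (U : Filter X)) : ∃ x, U = pure x := by
  obtain ⟨x, _, hx⟩ := isCompact_univ.ultrafilter_le_nhds U (by simp)
  by_cases hxU : {x} ∈ U
  · refine ⟨x, ?_⟩
    apply Ultrafilter.eq_of_le
    rw [Ultrafilter.coe_pure]
    exact Filter.le_pure_iff.2 hxU
  exfalso
  have hxU' : ({x} : Set X)ᶜ ∈ U := Ultrafilter.compl_mem_iff_notMem.2 hxU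
  obtain ⟨r, hrx, hr⟩ := hg x
  -- no class belongs to `U`
  have hclass : ∀ y, {z | r y z} ∉ U := by
    intro y hC
    have hyx : y ≠ x := by
      rintro rfl
      apply hxU
      refine Filter.mem_of_superset hC ?_
      intro z hz
      exact hrx z hz
    have hxC : x ∉ {z | r y z} := by
      intro h
      exact hyx (hrx y (r.symm h))
    obtain ⟨g, hgc, hg0, hgx, hgC⟩ := exists_fun (hr y hyx).2 hxC
    have h1 : ∀ n : ℕ, {z | g z < 1 / ((n : ℝ) + 1)} ∈ (U : Filter X) := by
      intro n
      apply hx
      have : IsOpen {z | g z < 1 / ((n : ℝ) + 1)} := isOpen_lt hgc continuous_const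
      apply this.mem_nhds
      show g x < _
      rw [hgx]
      positivity
    have h2 := countable_iInter_mem.2 h1
    obtain ⟨z, hz1, hz2⟩ := U.nonempty_of_mem (Filter.inter_mem hC h2)
    obtain ⟨m, hm⟩ := exists_nat_one_div_lt (hgC z hz1)
    have h3 : g z < 1 / ((m : ℝ) + 1) := mem_iInter.1 hz2 m
    linarith
  -- the discrete set of representatives
  let D : Set X := {z | z ≠ x ∧ (Quotient.mk r z).out = z}
  have hrepr : ∀ z, z ≠ x → (Quotient.mk r z).out ∈ D := by
    intro z hz
    refine ⟨?_, ?_⟩
    · intro h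
      apply hz
      have h1 : r (Quotient.mk r z).out z := Quotient.mk_out z
      rw [h] at h1
      exact hrx z h1
    · rw [Quotient.out_eq]
  have : DiscreteTopology D := by
    rw [discreteTopology_iff_isOpen_singleton]
    rintro ⟨z, hzx, hz⟩
    have h1 : IsOpen {w : D | r z w.1} := (hr z hzx).1.preimage continuous_subtype_val
    convert h1 using 1
    ext w
    rw [mem_singleton_iff]
    constructor
    · rintro rfl
      exact r.refl _
    · intro hw
      apply Subtype.ext
      show w.1 = z
      rw [← w.2.2, ← hz]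
      congr 1
      exact Quotient.sound (r.symm hw)
  -- the image ultrafilter on `D`
  classical
  have hne : ∃ z, z ≠ x := by
    obtain ⟨z, hz⟩ := U.nonempty_of_mem hxU'
    exact ⟨z, hz⟩
  obtain ⟨z0, hz0⟩ := hne
  let ρ : X → D := fun z => if h : z ≠ x then ⟨(Quotient.mk r z).out, hrepr z h⟩
    else ⟨(Quotient.mk r z0).out, hrepr z0 hz0⟩
  have hV : CountableInterFilter ((U.map ρ : Ultrafilter D) : Filter D) := by
    rw [Ultrafilter.coe_map]
    infer_instance
  obtain ⟨d, hd⟩ := principal_of_realcompact (hh D) _ hV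
  have h1 : ρ ⁻¹' {d} ∈ U := by
    have : ({d} : Set D) ∈ U.map ρ := by
      rw [hd]
      exact mem_singleton _
    exact this
  apply hclass d.1
  refine Filter.mem_of_superset (Filter.inter_mem h1 hxU') ?_
  rintro z ⟨hz1, hz2⟩
  have hz2' : z ≠ x := hz2
  have hz3 : ρ z = d := hz1
  have hz4 : ρ z = ⟨(Quotient.mk r z).out, hrepr z hz2'⟩ := dif_pos hz2'
  rw [hz4] at hz3
  show r d.1 z
  rw [← hz3]
  exact Quotient.mk_out z

end Pool.Agent.Helper78_Biseq
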