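import Mathlib
import Pool.Agent.Helper78_Biseq.Defs
import Pool.Agent.Helper78_Biseq.Basic

set_option autoImplicit false

/-!
Sequential Hausdorff continuous images of compact linearly ordered spaces: the complement of every
point is a disjoint sum of open sigma-compact subspaces.
-/

open Set Filter Topology

namespace Pool.Agent.Helper78_Biseq

universe u v w

section Up

variable {K : Type u} [LinearOrder K] [TopologicalSpace K] [OrderTopology K] [CompactSpace K]
variable {X : Type v} [TopologicalSpace X] [T2Space X] [SequentialSpace X]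

theorem up_sigmaCompact (f : K → X) (hf : Continuous f) (x : X) (z : K) :
    IsSigmaCompact {w | z ≤ w ∧ Icc z w ⊆ (f ⁻¹' {x})ᶜ} := by
  set S : Set K := (f ⁻¹' {x})ᶜ with hS
  set T : Set K := {w | z ≤ w ∧ Icc z w ⊆ S} with hT
  have hTS : ∀ w ∈ T, w ∈ S := fun w hw => hw.2 ⟨hw.1, le_refl w⟩
  by_cases h : ∃ s : ℕ → K, (∀ n, s n ∈ T) ∧ ∀ w ∈ T, ∃ n, w ≤ s n
  · obtain ⟨s, hs1, hs2⟩ := h
    have : T = ⋃ n, Icc z (s n) := by
      ext w
      constructor
      · intro hw
        obtain ⟨n, hn⟩ := hs2 w hw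
        exact mem_iUnion.2 ⟨n, hw.1, hn⟩
      · intro hw
        obtain ⟨n, hn⟩ := mem_iUnion.1 hw
        exact ⟨hn.1, (Icc_subset_Icc_right hn.2).trans (hs1 n).2⟩
    rw [this]
    exact isSigmaCompact_iUnion_of_isCompact _ (fun n => isClosed_Icc.isCompact)
  · push Not at h
    have h1 : IsClosed (f '' T) := by
      apply IsSeqClosed.isClosed
      intro u p hu hp
      choose s hs1 hs2 using hu
      obtain ⟨w, hw, hw'⟩ := h s hs1
      have h2 : IsClosed (f '' (Icc z w)) := (isClosed_Icc.isCompact.image hf).isClosed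
      have h3 : p ∈ f '' (Icc z w) := by
        apply h2.mem_of_tendsto hp
        exact Eventually.of_forall (fun n => ⟨s n, ⟨(hs1 n).1, (hw' n).le⟩, hs2 n⟩)
      obtain ⟨c, hc, rfl⟩ := h3
      exact ⟨c, ⟨hc.1, (Icc_subset_Icc_right hc.2).trans hw.2⟩, rfl⟩
    have h2 : IsClosed T := by
      rw [← closure_subset_iff_isClosed]
      intro b hb
      have hzb : z ≤ b := by
        have : closure T ⊆ Ici z := by
          rw [isClosed_Ici.closure_subset_iff]
          exact fun w hw => hw.1
        exact this hb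
      have hbS : b ∈ S := by
        have h3 : closure T ⊆ f ⁻¹' (f '' T) := by
          rw [(h1.preimage hf).closure_subset_iff]
          exact subset_preimage_image f T
        obtain ⟨w, hw, hwb⟩ := h3 hb
        intro h4
        apply hTS w hw
        show f w = x
        rw [hwb]
        exact h4
      refine ⟨hzb, ?_⟩
      intro c hc
      rcases hc.2.eq_or_lt with h5 | h5
      · rw [h5]; exact hbS
      · obtain ⟨w, hw1, hw2⟩ := mem_closure_iff.1 hb (Ioi c) isOpen_Ioi h5
        exact hw2.2 ⟨hc.1, le_of_lt hw1⟩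
    exact h2.isCompact.isSigmaCompact

theorem down_sigmaCompact (f : K → X) (hf : Continuous f) (x : X) (z : K) :
    IsSigmaCompact {w | w ≤ z ∧ Icc w z ⊆ (f ⁻¹' {x})ᶜ} := by
  have hK : CompactSpace Kᵒᵈ := inferInstanceAs (CompactSpace K)
  have h := up_sigmaCompact (K := Kᵒᵈ) (f ∘ OrderDual.ofDual) (hf.comp continuous_ofDual) x
    (OrderDual.toDual z)
  have h2 := h.image (continuous_ofDual (X := K))
  convert h2 using 1
  ext w
  constructor
  · rintro ⟨h3, h4⟩
    refine ⟨OrderDual.toDual w, ⟨h3, ?_⟩, rfl⟩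
    intro c hc
    exact h4 ⟨hc.2, hc.1⟩
  · rintro ⟨w', ⟨h3, h4⟩, rfl⟩
    refine ⟨h3, ?_⟩
    intro c hc
    exact h4 (a := OrderDual.toDual c) ⟨hc.2, hc.1⟩

theorem comp_sigmaCompact (f : K → X) (hf : Continuous f) (x : X) (z : K) :
    IsSigmaCompact (ordConnectedComponent (f ⁻¹' {x})ᶜ z) := by
  have h : ordConnectedComponent (f ⁻¹' {x})ᶜ z = ⋃ b : Bool,
      (if b then {w | z ≤ w ∧ Icc z w ⊆ (f ⁻¹' {x})ᶜ} else
        {w | w ≤ z ∧ Icc w z ⊆ (f ⁻¹' {x})ᶜ}) := by
    ext w
    rw [mem_ordConnectedComponent]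
    constructor
    · intro h
      rcases le_total z w with h1 | h1
      · rw [uIcc_of_le h1] at h
        exact mem_iUnion.2 ⟨true, h1, h⟩
      · rw [uIcc_of_ge h1] at h
        exact mem_iUnion.2 ⟨false, h1, h⟩
    · intro h
      obtain ⟨b, hb⟩ := mem_iUnion.1 h
      cases b with
      | true =>
        have hb' : z ≤ w ∧ Icc z w ⊆ (f ⁻¹' {x})ᶜ := hb
        rw [uIcc_of_le hb'.1]
        exact hb'.2
      | false =>
        have hb' : w ≤ z ∧ Icc w z ⊆ (f ⁻¹' {x})ᶜ := hb
        rw [uIcc_of_ge hb'.1]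
        exact hb'.2
  rw [h]
  apply isSigmaCompact_iUnion
  intro b
  cases b with
  | true => exact up_sigmaCompact f hf x z
  | false => exact down_sigmaCompact f hf x z

omit [CompactSpace K] in
theorem comp_isOpen {S : Set K} (hS : IsOpen S) (z : K) : IsOpen (ordConnectedComponent S z) := by
  rw [isOpen_iff_mem_nhds]
  intro w hw
  have h1 : w ∈ S := ordConnectedComponent_subset hw
  have h2 : ordConnectedComponent S z = ordConnectedComponent S w :=
    ordConnectedComponent_eq (mem_ordConnectedComponent.1 hw)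
  rw [h2]
  exact ordConnectedComponent_mem_nhds.2 (hS.mem_nhds h1)

/-- The relation generating the partition. -/
def Rel (f : K → X) (x : X) (y z : X) : Prop :=
  ∃ a b, f a = y ∧ f b = z ∧ b ∈ ordConnectedComponent (f ⁻¹' {x})ᶜ a

omit [TopologicalSpace K] [OrderTopology K] [CompactSpace K] [TopologicalSpace X] [T2Space X]
  [SequentialSpace X] in
theorem Rel.symm {f : K → X} {x y z : X} (h : Rel f x y z) : Rel f x z y := by
  obtain ⟨a, b, ha, hb, hab⟩ := h
  exact ⟨b, a, hb, ha, mem_ordConnectedComponent_comm.1 hab⟩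

omit [TopologicalSpace K] [OrderTopology K] [CompactSpace K] [TopologicalSpace X] [T2Space X]
  [SequentialSpace X] in
theorem Rel.ne_left {f : K → X} {x y z : X} (h : Rel f x y z) : y ≠ x := by
  obtain ⟨a, b, ha, hb, hab⟩ := h
  rintro rfl
  exact mem_ordConnectedComponent.1 hab left_mem_uIcc ha

theorem next_sigmaCompact (f : K → X) (hf : Continuous f) (x : X) (T : Set X)
    (hT : IsSigmaCompact T) (hxT : x ∉ T) : IsSigmaCompact {v | ∃ u ∈ T, Rel f x u v} := by
  obtain ⟨C, hC, hCT⟩ := hT
  have hS : IsOpen (f ⁻¹' {x})ᶜ := (isClosed_singleton.preimage hf).isOpen_compl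
  have key : ∀ n, IsSigmaCompact {v | ∃ u ∈ C n, Rel f x u v} := by
    intro n
    have h1 : IsCompact (f ⁻¹' (C n)) := ((hC n).isClosed.preimage hf).isCompact
    have h2 : f ⁻¹' (C n) ⊆ (f ⁻¹' {x})ᶜ := by
      intro a ha hax
      have hax' : f a = x := hax
      apply hxT
      rw [← hCT, ← hax']
      exact mem_iUnion.2 ⟨n, ha⟩
    obtain ⟨t, ht, htf, htc⟩ := h1.elim_finite_subcover_image
      (b := f ⁻¹' (C n)) (c := fun a => ordConnectedComponent (f ⁻¹' {x})ᶜ a)
      (fun a _ => comp_isOpen hS a)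
      (fun a ha => mem_iUnion₂.2 ⟨a, ha, self_mem_ordConnectedComponent.2 (h2 ha)⟩)
    have h3 : {v | ∃ u ∈ C n, Rel f x u v} =
        f '' (⋃ a ∈ t, ordConnectedComponent (f ⁻¹' {x})ᶜ a) := by
      ext v
      constructor
      · rintro ⟨u, hu, a, b, ha, hb, hab⟩
        refine ⟨b, ?_, hb⟩
        have ha' : a ∈ f ⁻¹' (C n) := by
          show f a ∈ C n
          rw [ha]
          exact hu
        obtain ⟨c, hct, hc⟩ := mem_iUnion₂.1 (htc ha')
        exact mem_iUnion₂.2 ⟨c, hct, mem_ordConnectedComponent_trans hc hab⟩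
      · rintro ⟨b, hb, rfl⟩
        obtain ⟨c, hct, hc⟩ := mem_iUnion₂.1 hb
        exact ⟨f c, ht hct, c, b, rfl, rfl, hc⟩
    rw [h3]
    apply IsSigmaCompact.image hf
    apply isSigmaCompact_biUnion htf.countable
    intro a _
    exact comp_sigmaCompact f hf x a
  have h4 : {v | ∃ u ∈ T, Rel f x u v} = ⋃ n, {v | ∃ u ∈ C n, Rel f x u v} := by
    ext v
    constructor
    · rintro ⟨u, hu, huv⟩
      rw [← hCT] at hu
      obtain ⟨n, hn⟩ := mem_iUnion.1 hu
      exact mem_iUnion.2 ⟨n, u, hn, huv⟩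
    · intro hv
      obtain ⟨n, u, hu, huv⟩ := mem_iUnion.1 hv
      exact ⟨u, hCT ▸ mem_iUnion.2 ⟨n, hu⟩, huv⟩
  rw [h4]
  exact isSigmaCompact_iUnion _ key

/-- The iterated neighbourhoods of a point. -/
def iter (f : K → X) (x y : X) : ℕ → Set X
  | 0 => {y}
  | n + 1 => {v | ∃ u ∈ iter f x y n, Rel f x u v}

omit [TopologicalSpace K] [OrderTopology K] [CompactSpace K] [TopologicalSpace X] [T2Space X]
  [SequentialSpace X] in
theorem iter_not_mem (f : K → X) (x y : X) (hy : y ≠ x) (n : ℕ) : x ∉ iter f x y n := by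
  cases n with
  | zero => exact fun h => hy h.symm
  | succ n =>
    rintro ⟨u, _, hu⟩
    exact hu.symm.ne_left rfl

theorem iter_sigmaCompact (f : K → X) (hf : Continuous f) (x y : X) (hy : y ≠ x) (n : ℕ) :
    IsSigmaCompact (iter f x y n) := by
  induction n with
  | zero => exact isCompact_singleton.isSigmaCompact
  | succ n ih => exact next_sigmaCompact f hf x _ ih (iter_not_mem f x y hy n)

omit [TopologicalSpace K] [OrderTopology K] [CompactSpace K] [TopologicalSpace X] [T2Space X]
  [SequentialSpace X] in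
theorem mem_iUnion_iter (f : K → X) (x y z : X) :
    Relation.ReflTransGen (Rel f x) y z ↔ z ∈ ⋃ n, iter f x y n := by
  constructor
  · intro h
    induction h with
    | refl => exact mem_iUnion.2 ⟨0, rfl⟩
    | tail _ hbc ih =>
      obtain ⟨n, hn⟩ := mem_iUnion.1 ih
      exact mem_iUnion.2 ⟨n + 1, _, hn, hbc⟩
  · intro h
    obtain ⟨n, hn⟩ := mem_iUnion.1 h
    clear h
    induction n generalizing z with
    | zero =>
      have : z = y := hn
      rw [this]
    | succ n ih =>
      obtain ⟨u, hu, huz⟩ := hn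
      exact (ih u hu).tail huz

omit [TopologicalSpace K] [OrderTopology K] [CompactSpace K] [TopologicalSpace X] [T2Space X]
  [SequentialSpace X] in
theorem rtg_symm {f : K → X} {x y z : X} (h : Relation.ReflTransGen (Rel f x) y z) :
    Relation.ReflTransGen (Rel f x) z y := by
  induction h with
  | refl => exact .refl
  | tail _ hbc ih => exact ih.head hbc.symm

/-- The partition of `X`. -/
def relSetoid (f : K → X) (x : X) : Setoid X where
  r := Relation.ReflTransGen (Rel f x)
  iseqv := ⟨fun _ => Relation.ReflTransGen.refl,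
    fun h => rtg_symm h, fun h h' => h.trans h'⟩

theorem goodAt_of_image (f : K → X) (hf : Continuous f) (hs : Function.Surjective f) (x : X) :
    GoodAt X x := by
  have hx : ∀ y, Relation.ReflTransGen (Rel f x) x y → y = x := by
    intro y h
    rcases Relation.ReflTransGen.cases_head h with h | ⟨c, hc, _⟩
    · exact h.symm
    · exact absurd rfl hc.ne_left
  refine ⟨relSetoid f x, hx, ?_⟩
  intro y hy
  constructor
  · have hS : IsOpen (f ⁻¹' {x})ᶜ := (isClosed_singleton.preimage hf).isOpen_compl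
    have h1 : IsOpen (f ⁻¹' {z | Relation.ReflTransGen (Rel f x) y z}) := by
      rw [isOpen_iff_mem_nhds]
      intro a ha
      have ha' : Relation.ReflTransGen (Rel f x) y (f a) := ha
      have haS : a ∈ (f ⁻¹' {x})ᶜ := by
        intro h
        have h' : f a = x := h
        rw [h'] at ha'
        exact hy (hx y (rtg_symm ha'))
      have h2 : ordConnectedComponent (f ⁻¹' {x})ᶜ a ∈ 𝓝 a :=
        ordConnectedComponent_mem_nhds.2 (hS.mem_nhds haS)
      refine Filter.mem_of_superset h2 ?_
      intro b hb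
      exact ha'.tail ⟨a, b, rfl, rfl, hb⟩
    have h2 : {z | Relation.ReflTransGen (Rel f x) y z} =
        (f '' (f ⁻¹' {z | Relation.ReflTransGen (Rel f x) y z})ᶜ)ᶜ := by
      rw [← preimage_compl, image_preimage_eq _ hs, compl_compl]
    show IsOpen {z | Relation.ReflTransGen (Rel f x) y z}
    rw [h2]
    exact (h1.isClosed_compl.isCompact.image hf).isClosed.isOpen_compl
  · show IsSigmaCompact {z | Relation.ReflTransGen (Rel f x) y z}
    have : {z | Relation.ReflTransGen (Rel f x) y z} = ⋃ n, iter f x y n := by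
      ext z
      exact mem_iUnion_iter f x y z
    rw [this]
    exact isSigmaCompact_iUnion _ (fun n => iter_sigmaCompact f hf x y hy n)

end Up

end Pool.Agent.Helper78_Biseq
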