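import Mathlib
import Pool.Agent.Helper78_Biseq.Defs
import Pool.Agent.Helper78_Biseq.Basic

set_option autoImplicit false

/-!
Compact Hausdorff spaces in which the complement of every point is paracompact: the complement of
every point is a disjoint sum of open sigma-compact subspaces.
-/

open Set Filter Topology

namespace Pool.Agent.Helper78_Biseq

universe u v w

variable {X : Type v} [TopologicalSpace X]

/-- Two points are related when some member of the family contains both. -/
def Rel2 {ι : Type u} (C : ι → Set X) (y z : X) : Prop := ∃ i, y ∈ C i ∧ z ∈ C i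

omit [TopologicalSpace X] in
theorem rtg2_symm {ι : Type u} {C : ι → Set X} {y z : X}
    (h : Relation.ReflTransGen (Rel2 C) y z) : Relation.ReflTransGen (Rel2 C) z y := by
  induction h with
  | refl => exact .refl
  | tail _ hbc ih =>
    obtain ⟨i, h1, h2⟩ := hbc
    exact ih.head ⟨i, h2, h1⟩

/-- The partition of `X`. -/
def relSetoid2 {ι : Type u} (C : ι → Set X) : Setoid X where
  r := Relation.ReflTransGen (Rel2 C)
  iseqv := ⟨fun _ => Relation.ReflTransGen.refl, fun h => rtg2_symm h, fun h h' => h.trans h'⟩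

/-- The iterated neighbourhoods of a point. -/
def iter2 {ι : Type u} (C : ι → Set X) (y : X) : ℕ → Set X
  | 0 => {y}
  | n + 1 => {v | ∃ u ∈ iter2 C y n, Rel2 C u v}

omit [TopologicalSpace X] in
theorem mem_iUnion_iter2 {ι : Type u} (C : ι → Set X) (y z : X) :
    Relation.ReflTransGen (Rel2 C) y z ↔ z ∈ ⋃ n, iter2 C y n := by
  constructor
  · intro h
    induction h with
    | refl => exact mem_iUnion.2 ⟨0, rfl⟩
    | tail _ hbc ih =>
      obtain ⟨n, hn⟩ := mem_iUnion.1 ih
      exact mem_iUnion.2 ⟨n + 1, _, hn, hbc⟩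
  · intro h
    obtain ⟨n, hn⟩ := mem_iUnion.1 h
    clear h
    induction n generalizing z with
    | zero =>
      have : z = y := hn
      rw [this]
    | succ n ih =>
      obtain ⟨u, hu, huz⟩ := hn
      exact (ih u hu).tail huz

variable [CompactSpace X] [T2Space X]

theorem goodAt_of_paracompact (x : X) (hp : ParacompactSpace {z : X // z ≠ x}) : GoodAt X x := by
  have hopen : IsOpen {z : X | z ≠ x} := isOpen_compl_singleton
  have hlc : LocallyCompactSpace {z : X // z ≠ x} := hopen.locallyCompactSpace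
  have h1 : ∀ p : {z : X // z ≠ x}, ∃ K : Set {z : X // z ≠ x}, IsCompact K ∧ K ∈ 𝓝 p :=
    fun p => exists_compact_mem_nhds p
  choose K hK hKn using h1
  obtain ⟨V, hVo, hVc, hVl, hVs⟩ := precise_refinement (fun p => interior (K p))
    (fun p => isOpen_interior) (by
      rw [eq_univ_iff_forall]
      intro p
      exact mem_iUnion.2 ⟨p, mem_interior_iff_mem_nhds.2 (hKn p)⟩)
  -- closures are compact
  have hcl : ∀ p, IsCompact (closure (V p)) := by
    intro p
    apply (hK p).of_isClosed_subset isClosed_closure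
    rw [(hK p).isClosed.closure_subset_iff]
    exact (hVs p).trans interior_subset
  have hcll : LocallyFinite (fun p => closure (V p)) := hVl.closure
  let C : {z : X // z ≠ x} → Set X := fun p => Subtype.val '' closure (V p)
  have hCx : ∀ p, x ∉ C p := by
    rintro p ⟨z, _, hz⟩
    exact z.2 hz
  have hCc : ∀ p, IsCompact (C p) := fun p => (hcl p).image continuous_subtype_val
  have hCfin : ∀ D : Set X, IsCompact D → x ∉ D → {p | (C p ∩ D).Nonempty}.Finite := by
    intro D hD hxD
    have h2 : IsCompact (Subtype.val ⁻¹' D : Set {z : X // z ≠ x}) := by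
      apply Topology.IsInducing.subtypeVal.isCompact_preimage' hD
      intro z hz
      refine ⟨⟨z, ?_⟩, rfl⟩
      rintro rfl
      exact hxD hz
    refine (hcll.finite_nonempty_inter_compact h2).subset ?_
    rintro p ⟨z, ⟨w, hw, rfl⟩, hz⟩
    exact ⟨w, hw, hz⟩
  have hx : ∀ y, Relation.ReflTransGen (Rel2 C) x y → y = x := by
    intro y h
    rcases Relation.ReflTransGen.cases_head h with h | ⟨c, ⟨i, hi, _⟩, _⟩
    · exact h.symm
    · exact absurd hi (hCx i)
  refine ⟨relSetoid2 C, hx, ?_⟩
  intro y hy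
  have hyx : ∀ z, Relation.ReflTransGen (Rel2 C) y z → z ≠ x := by
    rintro z hz rfl
    exact hy (hx y (rtg2_symm hz))
  constructor
  · show IsOpen {z | Relation.ReflTransGen (Rel2 C) y z}
    rw [isOpen_iff_mem_nhds]
    intro z hz
    have hzx := hyx z hz
    obtain ⟨p, hp⟩ := mem_iUnion.1 (by rw [hVc]; exact mem_univ (⟨z, hzx⟩ : {z : X // z ≠ x}))
    have h3 : IsOpen (Subtype.val '' V p) := hopen.isOpenMap_subtype_val _ (hVo p)
    refine Filter.mem_of_superset (h3.mem_nhds ⟨⟨z, hzx⟩, hp, rfl⟩) ?_
    rintro _ ⟨w, hw, rfl⟩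
    exact Relation.ReflTransGen.tail hz
      ⟨p, ⟨⟨z, hzx⟩, subset_closure hp, rfl⟩, ⟨w, subset_closure hw, rfl⟩⟩
  · show IsSigmaCompact {z | Relation.ReflTransGen (Rel2 C) y z}
    have h4 : {z | Relation.ReflTransGen (Rel2 C) y z} = ⋃ n, iter2 C y n := by
      ext z
      exact mem_iUnion_iter2 C y z
    rw [h4]
    apply isSigmaCompact_iUnion
    intro n
    induction n with
    | zero => exact isCompact_singleton.isSigmaCompact
    | succ n ih =>
      obtain ⟨D, hD, hDn⟩ := ih
      have h5 : ∀ m, x ∉ D m := by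
        intro m hm
        have h6 : x ∈ iter2 C y n := by
          rw [← hDn]
          exact mem_iUnion.2 ⟨m, hm⟩
        exact hyx x ((mem_iUnion_iter2 C y x).2 (mem_iUnion.2 ⟨n, h6⟩)) rfl
      have h7 : iter2 C y (n + 1) = ⋃ p ∈ ⋃ m, {p | (C p ∩ D m).Nonempty}, C p := by
        ext v
        constructor
        · rintro ⟨u, hu, i, hi1, hi2⟩
          rw [← hDn] at hu
          obtain ⟨m, hm⟩ := mem_iUnion.1 hu
          exact mem_iUnion₂.2 ⟨i, mem_iUnion.2 ⟨m, u, hi1, hm⟩, hi2⟩
        · intro hv
          obtain ⟨i, hi, hv⟩ := mem_iUnion₂.1 hv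
          obtain ⟨m, u, hu1, hu2⟩ := mem_iUnion.1 hi
          refine ⟨u, ?_, i, hu1, hv⟩
          rw [← hDn]
          exact mem_iUnion.2 ⟨m, hu2⟩
      rw [h7]
      apply isSigmaCompact_biUnion
      · exact countable_iUnion (fun m => (hCfin (D m) (hD m) (h5 m)).countable)
      · intro p _
        exact (hCc p).isSigmaCompact

end Pool.Agent.Helper78_Biseq
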